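import Mathlib

/-!
The derived series of a group with a solvable normal subgroup of finite index becomes stationary.
-/

set_option autoImplicit false

namespace Pool.Agent.KS6_21.NonSolv.Grp

open Subgroup

theorem comm_bot {G : Type*} [Group G] (K L : Subgroup G) [K.Normal] [L.Normal] (hLK : L ≤ K)
    (h1 : ⁅⁅K, K⁆, ⁅K, K⁆⁆ = ⊥) (h2 : ⁅L, L⁆ = ⊥) (h3 : K ≤ ⁅K, K⁆ ⊔ L) : ⁅K, K⁆ = ⊥ := by
  have hN1 : ⁅K, L⁆ ≤ ⁅K, K⁆ := commutator_mono le_rfl hLK
  have hN2 : ⁅K, L⁆ ≤ L := commutator_le_right K L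
  have hK'c : ⁅K, K⁆ ≤ centralizer (⁅K, K⁆ : Subgroup G) :=
    commutator_eq_bot_iff_le_centralizer.1 h1
  have hLc : L ≤ centralizer (L : Subgroup G) := commutator_eq_bot_iff_le_centralizer.1 h2
  have a1 : ⁅K, K⁆ ≤ centralizer (⁅K, L⁆ : Subgroup G) :=
    hK'c.trans (centralizer_le hN1)
  have a2 : L ≤ centralizer (⁅K, L⁆ : Subgroup G) := hLc.trans (centralizer_le hN2)
  have a3 : ⁅K, ⁅K, L⁆⁆ = ⊥ :=
    commutator_eq_bot_iff_le_centralizer.2 (h3.trans (sup_le a1 a2))
  have a4 : ⁅⁅K, L⁆, K⁆ = ⊥ := by rw [commutator_comm]; exact a3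
  have a5 : ⁅⁅L, K⁆, K⁆ = ⊥ := by rw [commutator_comm L K]; exact a4
  have a6 : ⁅⁅K, K⁆, L⁆ = ⊥ := commutator_commutator_eq_bot_of_rotate a4 a5
  have b1 : ⁅K, K⁆ ≤ centralizer (L : Subgroup G) := commutator_eq_bot_iff_le_centralizer.1 a6
  have b2 : L ≤ centralizer (⁅K, K⁆ : Subgroup G) := le_centralizer_iff.1 b1
  have b3 : K ≤ centralizer (⁅K, K⁆ : Subgroup G) := h3.trans (sup_le hK'c b2)
  have b4 : ⁅K, K⁆ ≤ centralizer (K : Subgroup G) := le_centralizer_iff.1 b3
  have b5 : K ≤ centralizer (L : Subgroup G) := h3.trans (sup_le b1 hLc)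
  have b6 : L ≤ centralizer (K : Subgroup G) := le_centralizer_iff.1 b5
  exact commutator_eq_bot_iff_le_centralizer.2 (h3.trans (sup_le b4 b6))

theorem key {G : Type*} [Group G] (K A : Subgroup G) [K.Normal] [A.Normal]
    (h : K ≤ ⁅K, K⁆ ⊔ A) : ⁅K, K⁆ ≤ ⁅⁅K, K⁆, ⁅K, K⁆⁆ ⊔ ⁅A, A⁆ := by
  let L : Subgroup G := K ⊓ A
  have hLn : L.Normal := inferInstanceAs (K ⊓ A).Normal
  let M : Subgroup G := ⁅⁅K, K⁆, ⁅K, K⁆⁆ ⊔ ⁅L, L⁆
  have hMn : M.Normal := inferInstanceAs (⁅⁅K, K⁆, ⁅K, K⁆⁆ ⊔ ⁅L, L⁆).Normal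
  let π : G →* G ⧸ M := QuotientGroup.mk' M
  have hπ : Function.Surjective π := QuotientGroup.mk'_surjective M
  have hKn : (K.map π).Normal := Normal.map inferInstance π hπ
  have hLn' : (L.map π).Normal := Normal.map hLn π hπ
  have hker : π.ker = M := QuotientGroup.ker_mk' M
  have h1 : ⁅⁅K.map π, K.map π⁆, ⁅K.map π, K.map π⁆⁆ = ⊥ := by
    rw [← map_commutator, ← map_commutator, Subgroup.map_eq_bot_iff, hker]
    exact le_sup_left
  have h2 : ⁅L.map π, L.map π⁆ = ⊥ := by
    rw [← map_commutator, Subgroup.map_eq_bot_iff, hker]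
    exact le_sup_right
  have hKL : K ≤ ⁅K, K⁆ ⊔ L := by
    intro x hx
    have hx1 : x ∈ ((⁅K, K⁆ ⊔ A : Subgroup G) : Set G) := h hx
    rw [mul_normal] at hx1
    obtain ⟨a, ha, b, hb, rfl⟩ := Set.mem_mul.1 hx1
    have ha' : a ∈ K := commutator_le_left K K ha
    have hb' : b ∈ K := by
      have := K.mul_mem (K.inv_mem ha') hx
      rwa [inv_mul_cancel_left] at this
    exact (⁅K, K⁆ ⊔ L).mul_mem (le_sup_left (a := ⁅K, K⁆) ha)
      (le_sup_right (a := ⁅K, K⁆) (show b ∈ L from ⟨hb', hb⟩))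
  have h3 : K.map π ≤ ⁅K.map π, K.map π⁆ ⊔ L.map π := by
    rw [← map_commutator, ← Subgroup.map_sup]
    exact map_mono hKL
  have h4 := comm_bot (K.map π) (L.map π) (map_mono inf_le_left) h1 h2 h3
  rw [← map_commutator, Subgroup.map_eq_bot_iff, hker] at h4
  exact h4.trans (sup_le_sup le_rfl (commutator_mono inf_le_right inf_le_right))

/-- The derived series becomes stationary. -/
theorem stab {G : Type*} [Group G] (A : Subgroup G) [hA : A.Normal] [Finite (G ⧸ A)]
    (hs : Group.IsSolvable A) : ∃ N, derivedSeries G N = derivedSeries G (N + 1) := by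
  obtain ⟨i, hi⟩ : ∃ i, derivedSeries G i ≤ derivedSeries G (i + 1) ⊔ A := by
    obtain ⟨i, j, hij, he⟩ := Finite.exists_ne_map_eq_of_infinite
      (fun n => derivedSeries (G ⧸ A) n)
    wlog hlt : i < j generalizing i j
    · exact this j i hij.symm he.symm (by omega)
    refine ⟨i, ?_⟩
    have h1 : derivedSeries (G ⧸ A) i ≤ derivedSeries (G ⧸ A) (i + 1) := by
      have he' : derivedSeries (G ⧸ A) i = derivedSeries (G ⧸ A) j := he
      rw [he']
      exact derivedSeries_antitone _ (show i + 1 ≤ j by omega)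
    have hsur := QuotientGroup.mk'_surjective A
    rw [← map_derivedSeries_eq hsur, ← map_derivedSeries_eq hsur, map_le_iff_le_comap,
      comap_map_eq, QuotientGroup.ker_mk'] at h1
    exact h1
  obtain ⟨n, hn⟩ := (Group.isSolvable_def A).1 hs
  have hAA : ∀ j, ((derivedSeries A j).map A.subtype).Normal := by
    intro j
    induction j with
    | zero =>
      rw [derivedSeries_zero, ← MonoidHom.range_eq_map, Subgroup.range_subtype]
      exact hA
    | succ j ih =>
      rw [derivedSeries_succ, map_commutator]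
      exact inferInstance
  have hmain : ∀ j, derivedSeries G (i + j) ≤
      derivedSeries G (i + j + 1) ⊔ (derivedSeries A j).map A.subtype := by
    intro j
    induction j with
    | zero =>
      rw [derivedSeries_zero, ← MonoidHom.range_eq_map, Subgroup.range_subtype]
      exact hi
    | succ j ih =>
      have := hAA j
      have hk := key (derivedSeries G (i + j)) ((derivedSeries A j).map A.subtype)
        (by rw [← derivedSeries_succ]; exact ih)
      rw [← map_commutator, ← derivedSeries_succ, ← derivedSeries_succ, ← derivedSeries_succ] at hk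
      exact hk
  have hfin := hmain n
  rw [hn, Subgroup.map_bot, sup_bot_eq] at hfin
  exact ⟨i + n, le_antisymm hfin (derivedSeries_antitone _ (Nat.le_succ _))⟩

theorem fg_of_map_inf_ker {G Q : Type*} [Group G] [Group Q] (f : G →* Q) (S : Subgroup G)
    (h1 : (S.map f).FG) (h2 : (S ⊓ f.ker).FG) : S.FG := by
  classical
  obtain ⟨T', hT'⟩ := h1
  obtain ⟨U, hU⟩ := h2
  have hlift : ∀ q : T', ∃ x ∈ S, f x = q := by
    intro q
    have : (q : Q) ∈ S.map f := by rw [← hT']; exact subset_closure q.2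
    obtain ⟨x, hx, hq⟩ := this
    exact ⟨x, hx, hq⟩
  choose l hlS hlf using hlift
  refine ⟨(Finset.univ.image l) ∪ U, le_antisymm ?_ ?_⟩
  · rw [closure_le]
    intro x hx
    simp only [Finset.coe_union, Finset.coe_image, Finset.coe_univ, Set.image_univ,
      Set.mem_union, Set.mem_range, Finset.mem_coe] at hx
    rcases hx with ⟨q, rfl⟩ | hx
    · exact hlS q
    · have : x ∈ S ⊓ f.ker := by rw [← hU]; exact subset_closure hx
      exact this.1
  · intro x hx
    have hmap : S.map f ≤ (closure (((Finset.univ.image l) ∪ U : Finset G) : Set G)).map f := by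
      rw [← hT', closure_le]
      intro q hq
      exact ⟨l ⟨q, hq⟩, subset_closure (by simp), hlf ⟨q, hq⟩⟩
    obtain ⟨y, hy, hyx⟩ := hmap ⟨x, hx, rfl⟩
    have hyS : y ∈ S := by
      refine (closure_le (K := S)).2 ?_ hy
      intro z hz
      simp only [Finset.coe_union, Finset.coe_image, Finset.coe_univ, Set.image_univ,
        Set.mem_union, Set.mem_range, Finset.mem_coe] at hz
      rcases hz with ⟨q, rfl⟩ | hz
      · exact hlS q
      · have : z ∈ S ⊓ f.ker := by rw [← hU]; exact subset_closure hz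
        exact this.1
    have hz : y⁻¹ * x ∈ S ⊓ f.ker := by
      refine Subgroup.mem_inf.2 ⟨S.mul_mem (S.inv_mem hyS) hx, ?_⟩
      rw [MonoidHom.mem_ker, map_mul, map_inv, hyx, inv_mul_cancel]
    have hz' : y⁻¹ * x ∈ closure (((Finset.univ.image l) ∪ U : Finset G) : Set G) := by
      rw [← hU] at hz
      refine closure_mono ?_ hz
      intro w hw
      simp only [Finset.coe_union, Set.mem_union, Finset.mem_coe]
      exact Or.inr hw
    have := Subgroup.mul_mem _ hy hz'
    rwa [mul_inv_cancel_left] at this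

end Pool.Agent.KS6_21.NonSolv.Grp
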