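import Mathlib

/-!
The theorem of P. Hall: over a commutative noetherian ring `k` the group ring of a group with a
subnormal series with cyclic factors is noetherian. The proof of one step (adjoining one element)
is adapted from the library file `HallC/NoeStep.lean`, where the coefficients are the integers.
-/

set_option autoImplicit false

namespace Pool.Agent.KS6_21.NonSolv.Noe

open Submodule

section sec
variable {k Γ A : Type*} [CommRing k] [Group Γ] [AddCommGroup A] [Module k A]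
  [DistribMulAction Γ A] [SMulCommClass Γ k A]

/-- ascending chain condition for the `R`-stable `k`-submodules of `M₀`. -/
def NoeOn (R : Subgroup Γ) (M₀ : Submodule k A) : Prop :=
  ∀ f : ℕ → Submodule k A, Monotone f → (∀ n, f n ≤ M₀ ∧ ∀ g ∈ R, ∀ x ∈ f n, g • x ∈ f n) →
    ∃ n, ∀ m, n ≤ m → f m = f n

/-- sums of `t^i • x`, `i < n`, `x ∈ M` -/
def SS (t : Γ) (M : Submodule k A) (n : ℕ) : Submodule k A :=
  span k {a : A | ∃ i : ℕ, i < n ∧ ∃ x ∈ M, a = t ^ i • x}

theorem SS_zero (t : Γ) (M : Submodule k A) (z : A) (hz : z ∈ SS t M 0) : z = 0 := by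
  have h : SS t M 0 = ⊥ := by
    unfold SS
    rw [span_eq_bot]
    rintro a ⟨i, hi, -⟩
    omega
  rw [h] at hz
  exact (mem_bot k).1 hz

theorem SS_mono (t : Γ) (M : Submodule k A) {n m : ℕ} (h : n ≤ m) :
    SS t M n ≤ SS t M m := by
  refine span_mono ?_
  rintro a ⟨i, hi, hx⟩
  exact ⟨i, by omega, hx⟩

theorem SS_gen (t : Γ) (M : Submodule k A) {n i : ℕ} (h : i < n) {x : A} (hx : x ∈ M) :
    t ^ i • x ∈ SS t M n :=
  subset_span ⟨i, h, x, hx, rfl⟩

theorem SS_succ (t : Γ) (M : Submodule k A) (n : ℕ) (z : A)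
    (hz : z ∈ SS t M (n + 1)) :
    ∃ m ∈ M, ∃ s ∈ SS t M n, z = t ^ n • m + s := by
  induction hz using span_induction with
  | mem a ha =>
    obtain ⟨i, hi, x, hx, rfl⟩ := ha
    by_cases h : i = n
    · subst h
      exact ⟨x, hx, 0, zero_mem _, by simp⟩
    · exact ⟨0, M.zero_mem, _, SS_gen t M (show i < n by omega) hx, by simp⟩
  | zero => exact ⟨0, M.zero_mem, 0, zero_mem _, by simp⟩
  | add a b _ _ h1 h2 =>
    obtain ⟨m1, hm1, s1, hs1, rfl⟩ := h1
    obtain ⟨m2, hm2, s2, hs2, rfl⟩ := h2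
    exact ⟨m1 + m2, M.add_mem hm1 hm2, s1 + s2, add_mem hs1 hs2, by
      rw [smul_add]; abel⟩
  | smul c a _ h1 =>
    obtain ⟨m1, hm1, s1, hs1, rfl⟩ := h1
    exact ⟨c • m1, M.smul_mem c hm1, c • s1, Submodule.smul_mem _ c hs1, by
      rw [smul_add, smul_comm (t ^ n) c m1]⟩

theorem SS_t (t : Γ) (M : Submodule k A) (n : ℕ) (z : A)
    (hz : z ∈ SS t M n) : t • z ∈ SS t M (n + 1) := by
  induction hz using span_induction with
  | mem a ha =>
    obtain ⟨i, hi, x, hx, rfl⟩ := ha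
    rw [← mul_smul, ← pow_succ']
    exact SS_gen t M (by omega) hx
  | zero => rw [smul_zero]; exact zero_mem _
  | add a b _ _ h1 h2 => rw [smul_add]; exact add_mem h1 h2
  | smul c a _ h1 => rw [smul_comm]; exact Submodule.smul_mem _ c h1

theorem SS_tpow (t : Γ) (M : Submodule k A) (j n : ℕ) (z : A)
    (hz : z ∈ SS t M n) : t ^ j • z ∈ SS t M (n + j) := by
  induction j with
  | zero => simpa using hz
  | succ j ih =>
    rw [pow_succ', mul_smul]
    exact SS_t t M _ _ ih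

theorem conj_iff {R : Subgroup Γ} {t : Γ} (hn : ∀ x, x ∈ R ↔ t * x * t⁻¹ ∈ R) (i : ℕ) (r : Γ) :
    r ∈ R ↔ t ^ i * r * (t ^ i)⁻¹ ∈ R := by
  induction i with
  | zero => simp
  | succ i ih =>
    rw [ih, hn]
    have : t ^ (i + 1) * r * (t ^ (i + 1))⁻¹ = t * (t ^ i * r * (t ^ i)⁻¹) * t⁻¹ := by
      rw [pow_succ']; group
    rw [this]

theorem SS_R {R : Subgroup Γ} {t : Γ} (hn : ∀ x, x ∈ R ↔ t * x * t⁻¹ ∈ R)
    {M : Submodule k A} (hM : ∀ g ∈ R, ∀ x ∈ M, g • x ∈ M) (n : ℕ) (r : Γ) (hr : r ∈ R) (z : A)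
    (hz : z ∈ SS t M n) : r • z ∈ SS t M n := by
  induction hz using span_induction with
  | mem a ha =>
    obtain ⟨i, hi, x, hx, rfl⟩ := ha
    have h1 : (t ^ i)⁻¹ * r * t ^ i ∈ R := by
      rw [conj_iff hn i]
      have : t ^ i * ((t ^ i)⁻¹ * r * t ^ i) * (t ^ i)⁻¹ = r := by group
      rw [this]; exact hr
    have h2 : r • (t ^ i • x) = t ^ i • (((t ^ i)⁻¹ * r * t ^ i) • x) := by
      rw [← mul_smul, ← mul_smul]
      congr 1
      group
    rw [h2]
    exact SS_gen t M hi (hM _ h1 _ hx)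
  | zero => rw [smul_zero]; exact zero_mem _
  | add a b _ _ h1 h2 => rw [smul_add]; exact add_mem h1 h2
  | smul c a _ h1 => rw [smul_comm]; exact Submodule.smul_mem _ c h1

theorem cover {R P : Subgroup Γ} {t : Γ} (hc : ∀ x ∈ P, ∃ j : ℤ, t ^ (-j) * x ∈ R)
    {M : Submodule k A} (hM : ∀ g ∈ R, ∀ x ∈ M, g • x ∈ M) (z : A)
    (hz : z ∈ span k {a : A | ∃ g ∈ P, ∃ x ∈ M, a = g • x}) :
    ∃ K n : ℕ, t ^ K • z ∈ SS t M n := by
  induction hz using span_induction with
  | mem a ha =>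
    obtain ⟨g, hg, x, hx, rfl⟩ := ha
    obtain ⟨j, hk⟩ := hc g hg
    have h1 : (t ^ (-j) * g) • x ∈ M := hM _ hk _ hx
    obtain ⟨m, hm⟩ : ∃ m : ℕ, (m : ℤ) = (j.natAbs : ℤ) + j := ⟨(j.natAbs + j).toNat, by omega⟩
    refine ⟨j.natAbs, m + 1, ?_⟩
    have h2 : t ^ j.natAbs • (g • x) = t ^ m • ((t ^ (-j) * g) • x) := by
      rw [← mul_smul, ← mul_smul]
      congr 1
      rw [← mul_assoc, ← zpow_natCast t m, hm, ← zpow_add, ← zpow_natCast t j.natAbs]
      congr 2
      ring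
    rw [h2]
    exact SS_gen t M (by omega) h1
  | zero => exact ⟨0, 0, by rw [smul_zero]; exact zero_mem _⟩
  | add a b _ _ h1 h2 =>
    obtain ⟨K1, n1, h1⟩ := h1
    obtain ⟨K2, n2, h2⟩ := h2
    refine ⟨K1 + K2, n1 + K2 + (n2 + K1), ?_⟩
    rw [smul_add]
    refine add_mem ?_ ?_
    · rw [add_comm K1 K2, pow_add, mul_smul]
      exact SS_mono t M (by omega) (SS_tpow t M K2 n1 _ h1)
    · rw [pow_add, mul_smul]
      exact SS_mono t M (by omega) (SS_tpow t M K1 n2 _ h2)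
  | smul c a _ h1 =>
    obtain ⟨K1, n1, h1⟩ := h1
    exact ⟨K1, n1, by rw [smul_comm]; exact Submodule.smul_mem _ c h1⟩

/-- leading coefficients of degree `n` -/
def LL (t : Γ) (M : Submodule k A) (n : ℕ) (N : Submodule k A) : Submodule k A where
  carrier := {m | m ∈ M ∧ ∃ z ∈ N, z - t ^ n • m ∈ SS t M n}
  zero_mem' := ⟨M.zero_mem, 0, N.zero_mem, by rw [smul_zero, sub_zero]; exact zero_mem _⟩
  add_mem' := by
    rintro a b ⟨ha, z, hz, h1⟩ ⟨hb, w, hw, h2⟩
    refine ⟨M.add_mem ha hb, z + w, N.add_mem hz hw, ?_⟩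
    have : z + w - t ^ n • (a + b) = (z - t ^ n • a) + (w - t ^ n • b) := by
      rw [smul_add]; abel
    rw [this]
    exact add_mem h1 h2
  smul_mem' := by
    rintro c a ⟨ha, z, hz, h1⟩
    refine ⟨M.smul_mem c ha, c • z, N.smul_mem c hz, ?_⟩
    have : c • z - t ^ n • (c • a) = c • (z - t ^ n • a) := by
      rw [smul_sub, smul_comm]
    rw [this]
    exact Submodule.smul_mem _ c h1

theorem LL_succ {P : Subgroup Γ} (t : Γ) (ht : t ∈ P) (M : Submodule k A) (n : ℕ)
    (N : Submodule k A) (hNP : ∀ g ∈ P, ∀ x ∈ N, g • x ∈ N) :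
    LL t M n N ≤ LL t M (n + 1) N := by
  rintro m ⟨hm, z, hz, h⟩
  refine ⟨hm, t • z, hNP t ht z hz, ?_⟩
  have : t • z - t ^ (n + 1) • m = t • (z - t ^ n • m) := by
    rw [smul_sub, ← mul_smul, ← pow_succ']
  rw [this]
  exact SS_t t M n _ h

theorem LL_deg {P : Subgroup Γ} (t : Γ) (ht : t ∈ P) (M : Submodule k A) {n m : ℕ}
    (hnm : n ≤ m) (N : Submodule k A) (hNP : ∀ g ∈ P, ∀ x ∈ N, g • x ∈ N) :
    LL t M n N ≤ LL t M m N := by
  induction m, hnm using Nat.le_induction with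
  | base => exact le_rfl
  | succ m _ ih => exact ih.trans (LL_succ t ht M m N hNP)

theorem LL_mono (t : Γ) (M : Submodule k A) (n : ℕ) {N N' : Submodule k A} (h : N ≤ N') :
    LL t M n N ≤ LL t M n N' := by
  rintro m ⟨hm, z, hz, h'⟩
  exact ⟨hm, z, h hz, h'⟩

theorem LL_R {R P : Subgroup Γ} (hRP : R ≤ P) {t : Γ}
    (hn : ∀ x, x ∈ R ↔ t * x * t⁻¹ ∈ R) {M : Submodule k A}
    (hM : ∀ g ∈ R, ∀ x ∈ M, g • x ∈ M) (n : ℕ) (N : Submodule k A)
    (hNP : ∀ g ∈ P, ∀ x ∈ N, g • x ∈ N) (r : Γ) (hr : r ∈ R) (m : A) (hm : m ∈ LL t M n N) :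
    r • m ∈ LL t M n N := by
  obtain ⟨hm, z, hz, h⟩ := hm
  have hr' : t ^ n * r * (t ^ n)⁻¹ ∈ R := (conj_iff hn n r).1 hr
  refine ⟨hM r hr m hm, (t ^ n * r * (t ^ n)⁻¹) • z, hNP _ (hRP hr') z hz, ?_⟩
  have : (t ^ n * r * (t ^ n)⁻¹) • z - t ^ n • (r • m)
      = (t ^ n * r * (t ^ n)⁻¹) • (z - t ^ n • m) := by
    rw [smul_sub, ← mul_smul, ← mul_smul]
    congr 2
    group
  rw [this]
  exact SS_R hn hM n _ hr' _ h

/-- The twisted Hilbert basis theorem (P. Hall): adjoining one element. -/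
theorem step (R P : Subgroup Γ) (t : Γ) (hRP : R ≤ P) (ht : t ∈ P)
    (hn : ∀ x, x ∈ R ↔ t * x * t⁻¹ ∈ R)
    (hc : ∀ x ∈ P, ∃ j : ℤ, t ^ (-j) * x ∈ R) (M : Submodule k A)
    (hM : ∀ g ∈ R, ∀ x ∈ M, g • x ∈ M) (hN : NoeOn R M) :
    NoeOn P (span k {a : A | ∃ g ∈ P, ∃ x ∈ M, a = g • x}) := by
  intro f hf hfs
  have hLM : ∀ n N, LL t M n N ≤ M := fun n N m hm => hm.1
  have hstab : ∀ n j, ∀ g ∈ R, ∀ x ∈ LL t M n (f j), g • x ∈ LL t M n (f j) :=
    fun n j g hg x hx => LL_R hRP hn hM n (f j) (hfs j).2 g hg x hx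
  obtain ⟨j0, hj0⟩ := hN (fun j => LL t M j (f j))
    (monotone_nat_of_le_succ fun j => (LL_succ t ht M j (f j) (hfs j).2).trans
      (LL_mono t M (j + 1) (hf (Nat.le_succ j))))
    (fun j => ⟨hLM _ _, hstab j j⟩)
  have hcol : ∀ n, ∃ j, ∀ m, j ≤ m → LL t M n (f m) = LL t M n (f j) := fun n =>
    hN (fun j => LL t M n (f j)) (fun i j hij => LL_mono t M n (hf hij))
      (fun j => ⟨hLM _ _, hstab n j⟩)
  choose c hcc using hcol
  let J := max j0 ((Finset.range j0).sup c)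
  have hJ0 : j0 ≤ J := le_max_left _ _
  have hJc : ∀ n, n < j0 → c n ≤ J := fun n hn' =>
    (Finset.le_sup (f := c) (Finset.mem_range.2 hn')).trans (le_max_right _ _)
  have hA : ∀ n j, J ≤ j → LL t M n (f j) = LL t M n (f J) := by
    intro n j hj
    by_cases hnj : n < j0
    · rw [hcc n j ((hJc n hnj).trans hj), hcc n J (hJc n hnj)]
    · refine le_antisymm ?_ (LL_mono t M n (hf hj))
      calc LL t M n (f j) ≤ LL t M (max n j) (f j) :=
            LL_deg t ht M (le_max_left _ _) _ (hfs j).2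
        _ ≤ LL t M (max n j) (f (max n j)) := LL_mono t M _ (hf (le_max_right _ _))
        _ = LL t M j0 (f j0) := hj0 (max n j) (by omega)
        _ ≤ LL t M n (f j0) := LL_deg t ht M (by omega) _ (hfs j0).2
        _ ≤ LL t M n (f J) := LL_mono t M _ (hf hJ0)
  refine ⟨J, fun j hj => le_antisymm ?_ (hf hj)⟩
  have hB : ∀ n, ∀ z ∈ f j, z ∈ SS t M n → z ∈ f J := by
    intro n
    induction n with
    | zero =>
      intro z _ hz
      rw [SS_zero t M z hz]
      exact (f J).zero_mem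
    | succ n ih =>
      intro z hzf hz
      obtain ⟨m, hm, s, hs, hzs⟩ := SS_succ t M n z hz
      have h1 : m ∈ LL t M n (f j) := ⟨hm, z, hzf, by rw [hzs, add_sub_cancel_left]; exact hs⟩
      rw [hA n j hj] at h1
      obtain ⟨_, z', hz', h2⟩ := h1
      have h3 : z - z' ∈ SS t M n := by
        have : z - z' = s - (z' - t ^ n • m) := by rw [hzs]; abel
        rw [this]
        exact sub_mem hs h2
      have h4 : z - z' ∈ f j := (f j).sub_mem hzf (hf hj hz')
      have h5 := (f J).add_mem (ih _ h4 h3) hz'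
      rwa [sub_add_cancel] at h5
  intro z hz
  obtain ⟨K, n, hKn⟩ := cover hc hM z ((hfs j).1 hz)
  have h1 : t ^ K • z ∈ f J := hB n _ ((hfs j).2 _ (P.pow_mem ht K) z hz) hKn
  have h2 := (hfs J).2 _ (P.inv_mem (P.pow_mem ht K)) _ h1
  rwa [inv_smul_smul] at h2

theorem base [IsNoetherianRing k] (x0 : A) :
    NoeOn (⊥ : Subgroup Γ) (span k {a : A | ∃ g ∈ (⊥ : Subgroup Γ), a = g • x0}) := by
  intro f hf hfs
  have hset : {a : A | ∃ g ∈ (⊥ : Subgroup Γ), a = g • x0} = {x0} := by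
    ext a
    constructor
    · rintro ⟨g, hg, rfl⟩
      rw [Subgroup.mem_bot.1 hg, one_smul]; rfl
    · rintro rfl
      exact ⟨1, Subgroup.mem_bot.2 rfl, (one_smul _ _).symm⟩
  rw [hset] at hfs
  have hN : IsNoetherian k (span k ({x0} : Set A)) :=
    isNoetherian_span_of_finite k (Set.finite_singleton x0)
  obtain ⟨n, hn⟩ := monotone_stabilizes_iff_noetherian.2 hN
    ⟨fun n => (f n).comap (span k ({x0} : Set A)).subtype, fun a b hab x hx => hf hab hx⟩
  refine ⟨n, fun m hm => ?_⟩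
  have h1 : (f n).comap (span k ({x0} : Set A)).subtype =
    (f m).comap (span k ({x0} : Set A)).subtype := hn m hm
  ext x
  constructor
  · intro hx
    have h2 : (⟨x, (hfs m).1 hx⟩ : span k ({x0} : Set A)) ∈
        (f m).comap (span k ({x0} : Set A)).subtype := hx
    rw [← h1] at h2
    exact h2
  · intro hx
    exact hf hm hx

/-- One step, in the form used for the induction along the series. -/
theorem step' (R P : Subgroup Γ) (t : Γ) (hRP : R ≤ P) (ht : t ∈ P)
    (hn : ∀ x, x ∈ R ↔ t * x * t⁻¹ ∈ R)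
    (hc : ∀ x ∈ P, ∃ j : ℤ, t ^ (-j) * x ∈ R) (x0 : A)
    (hN : NoeOn R (span k {a : A | ∃ g ∈ R, a = g • x0})) :
    NoeOn P (span k {a : A | ∃ g ∈ P, a = g • x0}) := by
  have hst : ∀ (P' : Subgroup Γ) (hP : R ≤ P') (g : Γ), g ∈ P' →
      ∀ x ∈ span k {a : A | ∃ g ∈ R, a = g • x0},
      g • x ∈ span k {a : A | ∃ g ∈ P', a = g • x0} := by
    intro P' hP g hg x hx
    induction hx using span_induction with
    | mem x hx =>
      obtain ⟨g', hg', rfl⟩ := hx
      rw [← mul_smul]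
      exact subset_span ⟨g * g', P'.mul_mem hg (hP hg'), rfl⟩
    | zero => rw [smul_zero]; exact zero_mem _
    | add x y _ _ hx hy => rw [smul_add]; exact add_mem hx hy
    | smul c x _ hx => rw [smul_comm]; exact Submodule.smul_mem _ c hx
  have h1 := step R P t hRP ht hn hc (span k {a : A | ∃ g ∈ R, a = g • x0})
    (fun g hg x hx => hst R le_rfl g hg x hx) hN
  have h2 : span k {a : A | ∃ g ∈ P, ∃ x ∈ span k {a : A | ∃ g ∈ R, a = g • x0}, a = g • x} =
      span k {a : A | ∃ g ∈ P, a = g • x0} := by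
    apply le_antisymm
    · rw [span_le]
      rintro a ⟨g, hg, x, hx, rfl⟩
      exact hst P hRP g hg x hx
    · rw [span_le]
      rintro a ⟨g, hg, rfl⟩
      exact subset_span ⟨g, hg, x0, subset_span ⟨1, R.one_mem, (one_smul _ _).symm⟩, rfl⟩
  rw [h2] at h1
  exact h1

end sec

/-- The group ring of a group `M` with a subnormal series with cyclic factors. -/
theorem noetherian {k M : Type*} [CommRing k] [IsNoetherianRing k] [Group M]
    (n : ℕ) (H : ℕ → Subgroup M) (h0 : H 0 = ⊥) (hn : H n = ⊤)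
    (hs : ∀ i < n, H i ≤ H (i + 1) ∧ ∃ t ∈ H (i + 1), (∀ x, x ∈ H i ↔ t * x * t⁻¹ ∈ H i) ∧
      ∀ x ∈ H (i + 1), ∃ j : ℤ, t ^ (-j) * x ∈ H i) :
    IsNoetherianRing (MonoidAlgebra k M) := by
  let act : DistribMulAction M (MonoidAlgebra k M) :=
    DistribMulAction.compHom _ (MonoidAlgebra.of k M)
  have hact : ∀ (g : M) (x : MonoidAlgebra k M), g • x = MonoidAlgebra.of k M g * x :=
    fun g x => rfl
  have : SMulCommClass M k (MonoidAlgebra k M) :=
    ⟨fun g c x => by rw [hact, hact, mul_smul_comm]⟩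
  have key : ∀ i ≤ n, NoeOn (k := k) (H i)
      (span k {a : MonoidAlgebra k M | ∃ g ∈ H i, a = g • (1 : MonoidAlgebra k M)}) := by
    intro i
    induction i with
    | zero =>
      intro _
      rw [h0]
      exact base 1
    | succ i ih =>
      intro hi
      obtain ⟨h1, t, ht, h2, h3⟩ := hs i (by omega)
      exact step' (H i) (H (i + 1)) t h1 ht h2 h3 1 (ih (by omega))
  have htop := key n le_rfl
  rw [hn] at htop
  have hspan : span k {a : MonoidAlgebra k M | ∃ g ∈ (⊤ : Subgroup M),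
      a = g • (1 : MonoidAlgebra k M)} = ⊤ := by
    rw [eq_top_iff]
    rintro x -
    induction x using MonoidAlgebra.induction_linear with
    | zero => exact zero_mem _
    | add a b ha hb => exact add_mem ha hb
    | single g r =>
      have : (MonoidAlgebra.single g r : MonoidAlgebra k M) =
          r • (g • (1 : MonoidAlgebra k M)) := by
        rw [hact, mul_one, MonoidAlgebra.of_apply, MonoidAlgebra.smul_single, smul_eq_mul, mul_one]
      rw [this]
      exact Submodule.smul_mem _ r (subset_span ⟨g, trivial, rfl⟩)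
  rw [hspan] at htop
  rw [isNoetherianRing_iff, ← monotone_stabilizes_iff_noetherian]
  intro f
  obtain ⟨m, hm⟩ := htop (fun i => (f i).restrictScalars k)
    (fun i j hij x hx => f.monotone hij hx)
    (fun i => ⟨le_top, fun g _ x hx => by
      change g • x ∈ f i
      rw [hact]
      exact (f i).smul_mem _ hx⟩)
  refine ⟨m, fun j hj => ?_⟩
  have h := hm j hj
  have h' : (f j).restrictScalars k = (f m).restrictScalars k := h
  exact (Submodule.restrictScalars_injective k _ _ h').symm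

end Pool.Agent.KS6_21.NonSolv.Noe
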