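import Mathlib
import Pool.Agent.KS6_21.NonSolv.Noe
import Pool.Agent.KS6_21.NonSolv.Grp
import Pool.Graph.R_pool_sql_team_seeded_f0cf7b00.H34R2.NoethGroupRing

/-!
Polycyclic-by-finite groups: all subgroups are finitely generated, the group rings over commutative
noetherian rings are noetherian, and the derived series becomes stationary.
-/

set_option autoImplicit false

namespace Pool.Agent.KS6_21.NonSolv

universe u v

open scoped commutatorElement

/-- A group is polycyclic if it has a subnormal series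
`⊥ = H 0 ≤ H 1 ≤ ⋯ ≤ H n = ⊤` (each term normal in the next) with cyclic factors. -/
def IsPolycyclic (G : Type u) [Group G] : Prop :=
  ∃ (n : ℕ) (H : ℕ → Subgroup G), H 0 = ⊥ ∧ H n = ⊤ ∧
    ∀ i < n, H i ≤ H (i + 1) ∧ ∃ _ : ((H i).subgroupOf (H (i + 1))).Normal,
      IsCyclic (↥(H (i + 1)) ⧸ (H i).subgroupOf (H (i + 1)))

/-- A group is polycyclic-by-finite (almost polycyclic) if it has a polycyclic normal subgroup of
finite index. -/
def IsPolycyclicByFinite (G : Type u) [Group G] : Prop :=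
  ∃ M : Subgroup G, M.Normal ∧ M.FiniteIndex ∧ IsPolycyclic M

namespace Poly

theorem gen {G : Type*} [Group G] (R P : Subgroup G) (_hRP : R ≤ P)
    (hn : (R.subgroupOf P).Normal) (hc : IsCyclic (↥P ⧸ R.subgroupOf P)) :
    ∃ t ∈ P, (∀ x, x ∈ R ↔ t * x * t⁻¹ ∈ R) ∧ ∀ x ∈ P, ∃ j : ℤ, t ^ (-j) * x ∈ R := by
  obtain ⟨q, hq⟩ := hc.exists_generator
  obtain ⟨⟨t, ht⟩, rfl⟩ := QuotientGroup.mk_surjective q
  refine ⟨t, ht, ?_, ?_⟩
  · have h1 : ∀ (s : G), s ∈ P → ∀ x ∈ R, s * x * s⁻¹ ∈ R := by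
      intro s hs x hx
      have := hn.conj_mem ⟨x, _hRP hx⟩ (Subgroup.mem_subgroupOf.2 hx) ⟨s, hs⟩
      exact Subgroup.mem_subgroupOf.1 this
    intro x
    constructor
    · intro hx
      exact h1 t ht x hx
    · intro hx
      have h2 := h1 t⁻¹ (P.inv_mem ht) _ hx
      have h3 : t⁻¹ * (t * x * t⁻¹) * t⁻¹⁻¹ = x := by group
      rwa [h3] at h2
  · intro x hx
    obtain ⟨j, hj⟩ := Subgroup.mem_zpowers_iff.1 (hq (QuotientGroup.mk ⟨x, hx⟩))
    refine ⟨j, ?_⟩
    rw [← QuotientGroup.mk_zpow, QuotientGroup.eq] at hj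
    have := Subgroup.mem_subgroupOf.1 hj
    rw [zpow_neg]
    exact this

theorem fg_subgroupOf {G : Type*} [Group G] {S P : Subgroup G} (h : S ≤ P) :
    (S.subgroupOf P).FG ↔ S.FG := by
  rw [← Group.fg_iff_subgroup_fg, ← Group.fg_iff_subgroup_fg]
  constructor
  · intro _
    exact Group.fg_of_surjective (f := (Subgroup.subgroupOfEquivOfLe h).toMonoidHom)
      (Subgroup.subgroupOfEquivOfLe h).surjective
  · intro _
    exact Group.fg_of_surjective (f := (Subgroup.subgroupOfEquivOfLe h).symm.toMonoidHom)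
      (Subgroup.subgroupOfEquivOfLe h).symm.surjective

theorem fg_step {G : Type*} [Group G] (R P : Subgroup G) (_hRP : R ≤ P)
    (hn : (R.subgroupOf P).Normal) (hc : IsCyclic (↥P ⧸ R.subgroupOf P))
    (hR : ∀ S ≤ R, S.FG) : ∀ S ≤ P, S.FG := by
  intro S hS
  rw [← fg_subgroupOf hS]
  apply Grp.fg_of_map_inf_ker (QuotientGroup.mk' (R.subgroupOf P))
  · rw [← Group.fg_iff_subgroup_fg]
    have h5 : IsCyclic ↥(Subgroup.map (QuotientGroup.mk' (R.subgroupOf P)) (S.subgroupOf P)) :=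
      Subgroup.isCyclic _
    obtain ⟨g, hg⟩ := h5.exists_generator
    refine ⟨⟨{g}, ?_⟩⟩
    rw [Finset.coe_singleton, ← Subgroup.zpowers_eq_closure, eq_top_iff]
    exact fun x _ => hg x
  · rw [QuotientGroup.ker_mk']
    have h1 : S.subgroupOf P ⊓ R.subgroupOf P = (S ⊓ R).subgroupOf P := by
      ext x; simp [Subgroup.mem_subgroupOf]
    rw [h1, fg_subgroupOf (inf_le_left.trans hS)]
    exact hR _ inf_le_right

theorem comm_step {G : Type*} [Group G] (R P : Subgroup G)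
    (hn : (R.subgroupOf P).Normal) (hc : IsCyclic (↥P ⧸ R.subgroupOf P)) : ⁅P, P⁆ ≤ R := by
  rw [Subgroup.commutator_le]
  intro x hx y hy
  obtain ⟨q, hq⟩ := hc.exists_generator
  obtain ⟨a, ha⟩ := Subgroup.mem_zpowers_iff.1 (hq (QuotientGroup.mk ⟨x, hx⟩))
  obtain ⟨b, hb⟩ := Subgroup.mem_zpowers_iff.1 (hq (QuotientGroup.mk ⟨y, hy⟩))
  have h1 : (QuotientGroup.mk ⁅(⟨x, hx⟩ : P), (⟨y, hy⟩ : P)⁆ : ↥P ⧸ R.subgroupOf P) = 1 := by
    have h2 : (QuotientGroup.mk' (R.subgroupOf P)) ⁅(⟨x, hx⟩ : P), (⟨y, hy⟩ : P)⁆ =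
        ⁅(QuotientGroup.mk' (R.subgroupOf P)) ⟨x, hx⟩,
          (QuotientGroup.mk' (R.subgroupOf P)) ⟨y, hy⟩⁆ := map_commutatorElement _ _ _
    have h3 : ⁅(QuotientGroup.mk' (R.subgroupOf P)) ⟨x, hx⟩,
          (QuotientGroup.mk' (R.subgroupOf P)) ⟨y, hy⟩⁆ = 1 := by
      rw [commutatorElement_eq_one_iff_mul_comm]
      rw [QuotientGroup.mk'_apply, QuotientGroup.mk'_apply, ← ha, ← hb]
      rw [← zpow_add, ← zpow_add, add_comm]
    rw [h3] at h2
    exact h2
  rw [QuotientGroup.eq_one_iff] at h1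
  exact Subgroup.mem_subgroupOf.1 h1

theorem poly_fg {G : Type*} [Group G] (h : IsPolycyclic G) (S : Subgroup G) : S.FG := by
  obtain ⟨n, H, h0, hn, hs⟩ := h
  have key : ∀ i ≤ n, ∀ S ≤ H i, S.FG := by
    intro i
    induction i with
    | zero =>
      intro _ S hS
      rw [h0, le_bot_iff] at hS
      rw [hS]
      exact ⟨∅, by simp⟩
    | succ i ih =>
      intro hi
      obtain ⟨h1, h2, h3⟩ := hs i (by omega)
      exact fg_step _ _ h1 h2 h3 (ih (by omega))
  exact key n le_rfl S (by rw [hn]; exact le_top)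

theorem poly_solvable {G : Type*} [Group G] (h : IsPolycyclic G) : Group.IsSolvable G := by
  obtain ⟨n, H, h0, hn, hs⟩ := h
  rw [Group.isSolvable_def]
  refine ⟨n, ?_⟩
  have key : ∀ j ≤ n, derivedSeries G j ≤ H (n - j) := by
    intro j
    induction j with
    | zero => intro _; rw [Nat.sub_zero, hn]; exact le_top
    | succ j ih =>
      intro hj
      rw [derivedSeries_succ]
      obtain ⟨_, h2, h3⟩ := hs (n - (j + 1)) (by omega)
      have h4 := ih (by omega)
      have h5 : n - j = n - (j + 1) + 1 := by omega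
      rw [h5] at h4
      exact (Subgroup.commutator_mono h4 h4).trans (comm_step _ _ h2 h3)
  have := key n le_rfl
  rw [Nat.sub_self, h0, le_bot_iff] at this
  exact this

theorem poly_noeth {k G : Type*} [CommRing k] [IsNoetherianRing k] [Group G]
    (h : IsPolycyclic G) : IsNoetherianRing (MonoidAlgebra k G) := by
  obtain ⟨n, H, h0, hn, hs⟩ := h
  refine Noe.noetherian n H h0 hn fun i hi => ?_
  obtain ⟨h1, h2, h3⟩ := hs i hi
  exact ⟨h1, gen _ _ h1 h2 h3⟩

theorem pbf_noeth {k G : Type*} [CommRing k] [IsNoetherianRing k] [Group G]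
    (h : IsPolycyclicByFinite G) : IsNoetherianRing (MonoidAlgebra k G) := by
  obtain ⟨M, _, _, hM⟩ := h
  exact Pool.Agent.H34R2.NoethGroupRing.noetherian_of_subgroup M (poly_noeth hM)

theorem pbf_fg {G : Type*} [Group G] (h : IsPolycyclicByFinite G) (S : Subgroup G) : S.FG := by
  obtain ⟨M, _, _, hM⟩ := h
  apply Grp.fg_of_map_inf_ker (QuotientGroup.mk' M)
  · rw [← Group.fg_iff_subgroup_fg]
    infer_instance
  · rw [QuotientGroup.ker_mk', ← fg_subgroupOf (inf_le_right : S ⊓ M ≤ M)]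
    exact poly_fg hM _

theorem pbf_stab {G : Type*} [Group G] (h : IsPolycyclicByFinite G) :
    ∃ N, derivedSeries G N = derivedSeries G (N + 1) := by
  obtain ⟨M, _, _, hM⟩ := h
  exact Grp.stab M (poly_solvable hM)

end Poly

end Pool.Agent.KS6_21.NonSolv
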