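import Mathlib
import Pool.Agent.KS6_21.NonSolv.Poly
import Pool.Graph.R_pool_sql_team_seeded_f0cf7b00.H34R2.Whitehead
import Pool.Graph.R_pool_sql_team_seeded_f0cf7b00.H34R2.AugIdem
import Pool.Graph.R_pool_sql_team_seeded_f0cf7b00.H34R2.GroupPerf

/-!
Projective modules over the group rings of polycyclic-by-finite groups with infinite perfect
subgroups.
-/

set_option autoImplicit false

namespace Pool.Agent.KS6_21.NonSolv

universe u v w

open Pool.Agent.H34R2

/-- If `G` is an infinite subgroup generated by the `g l` then no nonzero element of the group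
ring of `Γ` is killed by right multiplication by all `g l - 1`. -/
theorem eq_zero_of_mul {k : Type*} [CommRing k] {Γ : Type*} [Group Γ] {n : ℕ} (G : Subgroup Γ)
    [Infinite G] (g : Fin n → G) (hg : Subgroup.closure (Set.range g) = ⊤)
    (x : MonoidAlgebra k Γ) (hx : ∀ l, x * AugIdem.d k (g l : Γ) = 0) : x = 0 := by
  have h1 : ∀ y : G, x * MonoidAlgebra.single (y : Γ) 1 = x := by
    intro y
    have hy : y ∈ Subgroup.closure (Set.range g) := by rw [hg]; trivial
    induction hy using Subgroup.closure_induction with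
    | mem y hy =>
      obtain ⟨l, rfl⟩ := hy
      have := hx l
      rw [AugIdem.d, mul_sub, mul_one, sub_eq_zero] at this
      exact this
    | one => rw [Subgroup.coe_one, ← MonoidAlgebra.one_def, mul_one]
    | mul a b _ _ ha hb =>
      have : (MonoidAlgebra.single ((a * b : G) : Γ) 1 : MonoidAlgebra k Γ) =
          MonoidAlgebra.single (a : Γ) 1 * MonoidAlgebra.single (b : Γ) 1 := by
        rw [MonoidAlgebra.single_mul_single, mul_one, Subgroup.coe_mul]
      rw [this, ← mul_assoc, ha, hb]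
    | inv a _ ha =>
      conv_lhs => rw [← ha]
      rw [mul_assoc, MonoidAlgebra.single_mul_single, Subgroup.coe_inv, mul_inv_cancel, mul_one,
        ← MonoidAlgebra.one_def, mul_one]
  have h2 : ∀ (y : G) (z : Γ), x.coeff (z * (y : Γ)⁻¹) = x.coeff z := by
    intro y z
    have := congrArg (fun f => MonoidAlgebra.coeff f z) (h1 y)
    simp only [MonoidAlgebra.coeff_mul_single_apply, mul_one] at this
    exact this
  apply MonoidAlgebra.coeff_injective
  ext z
  by_contra hz
  have hz' : x.coeff z ≠ 0 := by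
    intro h; apply hz; rw [h]; simp
  have hinf : Set.Infinite (Set.range fun y : G => z * (y : Γ)⁻¹) := by
    apply Set.infinite_range_of_injective
    intro a b hab
    simpa using hab
  apply hinf
  refine (Finset.finite_toSet x.coeff.support).subset ?_
  rintro _ ⟨y, rfl⟩
  simp only [Finset.mem_coe, Finsupp.mem_support_iff]
  rw [h2 y z]
  exact hz'

theorem hphi {k : Type*} [CommRing k] {Γ : Type*} [Group Γ] (G : Subgroup Γ) (x : G) :
    MonoidAlgebra.mapDomainRingHom k G.subtype (AugIdem.d k x) = AugIdem.d k (x : Γ) := by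
  simp [AugIdem.d, map_sub, map_one, MonoidAlgebra.mapDomainRingHom_apply,
    MonoidAlgebra.mapDomain_single]

/-- The module-theoretic construction for an infinite finitely generated perfect subgroup. -/
theorem exists_proj {Γ : Type v} [Group Γ] (G : Subgroup Γ) (hfg : G.FG) [Infinite G]
    (hperf : ⁅G, G⁆ = G) (k : Type u) [CommRing k] [Nontrivial k] :
    ∃ (P : Type (max u v)) (_ : AddCommGroup P) (_ : Module (MonoidAlgebra k Γ) P),
      Module.Projective (MonoidAlgebra k Γ) P ∧
      ∀ (F : Type w) [AddCommGroup F] [Module (MonoidAlgebra k Γ) F],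
        Module.Free (MonoidAlgebra k Γ) F →
        ∀ (M : Type (max u v)) [AddCommGroup M] [Module (MonoidAlgebra k Γ) M],
          Module.Finite (MonoidAlgebra k Γ) M → IsEmpty (P ≃ₗ[MonoidAlgebra k Γ] (F × M)) := by
  have hcomm : commutator G = ⊤ := by
    apply Subgroup.map_injective G.subtype_injective
    rw [Subgroup.map_subtype_commutator, hperf, ← MonoidHom.range_eq_map, Subgroup.range_subtype]
  have hG : Group.FG G := (Group.fg_iff_subgroup_fg G).2 hfg
  obtain ⟨s, hs⟩ := hG.out
  let g : Fin s.card → G := fun i => (s.equivFin.symm i : G)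
  have hg : Subgroup.closure (Set.range g) = ⊤ := by
    rw [← hs]
    congr 1
    ext x
    constructor
    · rintro ⟨i, rfl⟩
      exact (s.equivFin.symm i).2
    · intro hx
      exact ⟨s.equivFin ⟨x, hx⟩, by simp [g]⟩
  obtain ⟨c, hc⟩ := AugIdem.exists_c (k := k) hg hcomm
  let φ := MonoidAlgebra.mapDomainRingHom k G.subtype
  let t : Fin s.card → MonoidAlgebra k Γ := fun l => AugIdem.d k (g l : Γ)
  have hc' : ∀ j, t j = ∑ i, ∑ l, t i * t l * φ (c i l j) := by
    intro j
    have h := congrArg φ (hc j)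
    simp only [map_sum, map_mul] at h
    simp only [φ, hphi] at h
    exact h
  have ht : ∀ l, AugIdem.aug k Γ (t l) = 0 := fun l => AugIdem.aug_d _
  have hinj : ∀ x : MonoidAlgebra k Γ, (∀ l, x * t l = 0) → x = 0 :=
    fun x hx => eq_zero_of_mul G g hg x hx
  refine ⟨Whitehead.WMod t, inferInstance, inferInstance, Whitehead.projective t _ hc', ?_⟩
  intro F _ _ hF M _ _ hM
  refine ⟨fun e => ?_⟩
  have hsub : Subsingleton F := by
    obtain ⟨⟨ι, b⟩⟩ := hF.exists_basis
    by_cases hι : IsEmpty ι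
    · exact b.repr.toEquiv.subsingleton
    · rw [not_isEmpty_iff] at hι
      obtain ⟨i⟩ := hι
      exfalso
      let ψ : Whitehead.WMod t →ₗ[MonoidAlgebra k Γ] MonoidAlgebra k Γ :=
        (b.coord i) ∘ₗ (LinearMap.fst (MonoidAlgebra k Γ) F M) ∘ₗ e.toLinearMap
      have h := Whitehead.hom_mem_ker t (AugIdem.aug k Γ) ht ψ (e.symm (b i, 0))
      have h1 : ψ (e.symm (b i, 0)) = 1 := by
        simp [ψ]
      rw [h1, map_one] at h
      exact one_ne_zero h
  have hfin : Module.Finite (MonoidAlgebra k Γ) (F × M) := by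
    have : Module.Finite (MonoidAlgebra k Γ) F := inferInstance
    infer_instance
  exact Whitehead.not_finite t (AugIdem.aug k Γ) ht hinj (Module.Finite.equiv e.symm)

/-- Every group of the theorem has an infinite finitely generated perfect subgroup. -/
theorem exists_perfect {Γ : Type v} [Group Γ] (hp : IsPolycyclicByFinite Γ)
    (hinf : ∀ n, Infinite (derivedSeries Γ n)) :
    ∃ G : Subgroup Γ, G.FG ∧ Infinite G ∧ ⁅G, G⁆ = G := by
  obtain ⟨N, hN⟩ := Poly.pbf_stab hp
  refine ⟨derivedSeries Γ N, Poly.pbf_fg hp _, hinf N, ?_⟩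
  rw [← derivedSeries_succ, ← hN]

theorem infinite_of_not_solvable {Γ : Type v} [Group Γ] (htf : ∀ g : Γ, IsOfFinOrder g → g = 1)
    (hns : ¬ Group.IsSolvable Γ) (n : ℕ) : Infinite (derivedSeries Γ n) := by
  have hne : derivedSeries Γ n ≠ ⊥ := fun h => hns ((Group.isSolvable_def Γ).2 ⟨n, h⟩)
  obtain ⟨x, hx, hx1⟩ := (Subgroup.bot_or_exists_ne_one (derivedSeries Γ n)).resolve_left hne
  have hord : ¬ IsOfFinOrder (x : Γ) := by
    intro h
    exact hx1 (htf _ h)
  have hinj := injective_pow_iff_not_isOfFinOrder.2 hord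
  refine Infinite.of_injective (fun m : ℕ => (⟨(x : Γ) ^ m, Subgroup.pow_mem _ hx m⟩ :
    derivedSeries Γ n)) ?_
  intro a b hab
  exact hinj (congrArg Subtype.val hab)

/-- Finitely generated abelian groups are polycyclic. -/
theorem isPolycyclic_of_comm (A : Type u) [CommGroup A] [hA : Group.FG A] : IsPolycyclic A := by
  obtain ⟨s, hs⟩ := hA.out
  let g : Fin s.card → A := fun i => (s.equivFin.symm i : A)
  have hg : Set.range g = (s : Set A) := by
    ext x
    constructor
    · rintro ⟨i, rfl⟩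
      exact (s.equivFin.symm i).2
    · intro hx
      exact ⟨s.equivFin ⟨x, hx⟩, by simp [g]⟩
  refine ⟨s.card, fun i => Subgroup.closure (g '' {j | (j : ℕ) < i}), ?_, ?_, ?_⟩
  · simp
  · have : {j : Fin s.card | (j : ℕ) < s.card} = Set.univ := by ext j; simp
    simp only [this, Set.image_univ, hg, hs]
  · intro i hi
    have hle : Subgroup.closure (g '' {j | (j : ℕ) < i}) ≤
        Subgroup.closure (g '' {j | (j : ℕ) < i + 1}) := by
      apply Subgroup.closure_mono
      apply Set.image_mono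
      intro j (hj : (j : ℕ) < i)
      exact Nat.lt_succ_of_lt hj
    refine ⟨hle, inferInstance, ?_⟩
    have hmem : g ⟨i, hi⟩ ∈ Subgroup.closure (g '' {j | (j : ℕ) < i + 1}) :=
      Subgroup.subset_closure ⟨⟨i, hi⟩, Nat.lt_succ_self i, rfl⟩
    have hsup : Subgroup.closure (g '' {j | (j : ℕ) < i + 1}) ≤
        Subgroup.closure (g '' {j | (j : ℕ) < i}) ⊔ Subgroup.zpowers (g ⟨i, hi⟩) := by
      rw [Subgroup.closure_le]
      rintro _ ⟨j, hj, rfl⟩
      rcases Nat.lt_succ_iff_lt_or_eq.1 hj with h | h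
      · exact (le_sup_left : _ ≤ Subgroup.closure (g '' {j | (j : ℕ) < i}) ⊔
          Subgroup.zpowers (g ⟨i, hi⟩)) (Subgroup.subset_closure ⟨j, h, rfl⟩)
      · have : j = ⟨i, hi⟩ := Fin.ext h
        rw [this]
        exact (le_sup_right : _ ≤ Subgroup.closure (g '' {j | (j : ℕ) < i}) ⊔
          Subgroup.zpowers (g ⟨i, hi⟩)) (Subgroup.mem_zpowers _)
    refine ⟨⟨QuotientGroup.mk ⟨g ⟨i, hi⟩, hmem⟩, fun x => ?_⟩⟩
    obtain ⟨⟨x, hx⟩, rfl⟩ := QuotientGroup.mk_surjective x
    obtain ⟨y, hy, z, hz, hyz⟩ := Subgroup.mem_sup.1 (hsup hx)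
    obtain ⟨m, rfl⟩ := Subgroup.mem_zpowers_iff.1 hz
    refine ⟨m, ?_⟩
    change (QuotientGroup.mk _ : _ ⧸ _) ^ m = _
    rw [← QuotientGroup.mk_zpow, QuotientGroup.eq]
    rw [Subgroup.mem_subgroupOf]
    have h2 : (g ⟨i, hi⟩ ^ m)⁻¹ * x = y := by
      rw [← hyz, mul_comm y, inv_mul_cancel_left]
    have h3 : (g ⟨i, hi⟩ ^ m)⁻¹ * x ∈ Subgroup.closure (g '' {j | (j : ℕ) < i}) := by
      rw [h2]; exact hy
    exact h3

/-- There are torsion-free polycyclic-by-finite groups which are not solvable. -/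
theorem exists_group : ∃ (Γ : Type) (_ : Group Γ), (∀ g : Γ, IsOfFinOrder g → g = 1) ∧
    IsPolycyclicByFinite Γ ∧ ¬ Group.IsSolvable Γ := by
  refine ⟨GroupPerf.G, inferInstance, ?_, ?_, ?_⟩
  · intro g hg
    rw [isOfFinOrder_iff_pow_eq_one] at hg
    obtain ⟨n, hn, hgn⟩ := hg
    exact GroupPerf.G_torsionfree g n hn.ne' hgn
  · refine ⟨GroupPerf.B, inferInstance, inferInstance, ?_⟩
    let inst : CommGroup GroupPerf.B :=
      { (inferInstance : Group GroupPerf.B) with
        mul_comm := fun a b => Subtype.ext (GroupPerf.B_comm a.1 b.1 a.2 b.2) }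
    have : Group.FG GroupPerf.B := (Group.fg_iff_subgroup_fg _).2 GroupPerf.B_fg
    exact @isPolycyclic_of_comm GroupPerf.B inst this
  · intro h
    obtain ⟨n, hn⟩ := (Group.isSolvable_def _).1 h
    have hall : ∀ m, derivedSeries GroupPerf.G m = ⊤ := by
      intro m
      induction m with
      | zero => rfl
      | succ m ih => rw [derivedSeries_succ, ih]; exact GroupPerf.G_perfect
    rw [hall n] at hn
    have h2 := GroupPerf.G_nontrivial
    exact top_ne_bot hn

end Pool.Agent.KS6_21.NonSolv
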